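import Pool.Agent.Helper30.TP.Jac

/-!
# Ramification along the critical curve

`F` is an endomorphism of the projective plane with Jacobian determinant `J`, and `g` a squarefree
form such that `g ∘ F = g q`. If every irreducible factor of `J` divides `g`, then `J` divides a
power of `q`.
-/

set_option autoImplicit false

namespace Pool.Agent.Helper14.PC

open MvPolynomial
open Pool.Agent.Helper30.TP

variable {k : Type} [Field k]

/-- The chain rule. -/
theorem derivation_bind {S : Type} [AddCommGroup S] [Module k S]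
    [Module (MvPolynomial (Fin 3) k) S] [IsScalarTower k (MvPolynomial (Fin 3) k) S]
    (D : Derivation k (MvPolynomial (Fin 3) k) S) (F : Fin 3 → MvPolynomial (Fin 3) k)
    (g : MvPolynomial (Fin 3) k) :
    D (bind₁ F g) = ∑ i, bind₁ F (pderiv i g) • D (F i) := by
  induction g using MvPolynomial.induction_on with
  | C a =>
    rw [bind₁_C_right]
    have h1 : D (C a) = 0 := D.map_algebraMap a
    rw [h1]
    symm
    exact Finset.sum_eq_zero fun i _ => by rw [pderiv_C, map_zero, zero_smul]
  | add p q hp hq =>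
    rw [map_add, map_add, hp, hq, ← Finset.sum_add_distrib]
    exact Finset.sum_congr rfl fun i _ => by rw [map_add, map_add, add_smul]
  | mul_X p j hp =>
    rw [map_mul, bind₁_X_right, Derivation.leibniz, hp, Finset.smul_sum]
    have h2 : ∀ i, bind₁ F (pderiv i (p * X j)) • D (F i) =
        F j • bind₁ F (pderiv i p) • D (F i) +
          (if i = j then bind₁ F p • D (F j) else 0) := by
      intro i
      rw [Derivation.leibniz, smul_eq_mul, smul_eq_mul, map_add, map_mul, map_mul, bind₁_X_right,
        add_smul, add_comm, mul_smul]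
      congr 1
      by_cases hij : i = j
      · subst hij
        rw [if_pos rfl, pderiv_X_self, map_one, mul_one]
      · rw [if_neg hij, pderiv_X_of_ne (Ne.symm hij), map_zero, mul_zero, zero_smul]
    rw [Finset.sum_congr rfl fun i _ => h2 i, Finset.sum_add_distrib, Finset.sum_ite_eq',
      if_pos (Finset.mem_univ j), add_comm]

/-- If the irreducible polynomial `P` divides the Jacobian determinant and `g ∘ F = P w`, then `P`
divides `w`: the map is ramified along `P`. -/
theorem dvd_of_dvd_jf [IsAlgClosed k] [CharZero k] {d : ℕ} {F : Fin 3 → MvPolynomial (Fin 3) k}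
    (hF : IsEndo d F) {P g w : MvPolynomial (Fin 3) k} (hP : Irreducible P) (hPJ : P ∣ jf F)
    (hg : bind₁ F g = P * w) : P ∣ w := by
  classical
  by_contra hPw
  have hprime : Prime P := hP.prime
  let I : Ideal (MvPolynomial (Fin 3) k) := Ideal.span {P}
  have hI : I.IsPrime := (Ideal.span_singleton_prime hprime.ne_zero).2 hprime
  let S := MvPolynomial (Fin 3) k ⧸ I
  let f : MvPolynomial (Fin 3) k →ₐ[k] S := Ideal.Quotient.mkₐ k I
  have hfsurj : Function.Surjective f := Ideal.Quotient.mkₐ_surjective k I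
  have hf0 : ∀ a, f a = 0 ↔ P ∣ a := fun a => by
    rw [← Ideal.mem_span_singleton]
    exact Ideal.Quotient.eq_zero_iff_mem
  have hchar : CharZero S := charZero_of_injective_algebraMap (algebraMap k S).injective
  -- a kernel vector
  have hdet : ((Matrix.of fun i j => pderiv j (F i)).map f).det = 0 := by
    have h1 : ((Matrix.of fun i j => pderiv j (F i)).map f).det = f (jf F) := by
      unfold jf
      exact (AlgHom.map_det f _).symm
    rw [h1]
    exact (hf0 _).2 hPJ
  obtain ⟨v, hv, hMv⟩ := Matrix.exists_mulVec_eq_zero_iff.2 hdet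
  choose u hu using fun j => hfsurj (v j)
  let D : Derivation k (MvPolynomial (Fin 3) k) (MvPolynomial (Fin 3) k) :=
    u 0 • pderiv 0 + u 1 • pderiv 1 + u 2 • pderiv 2
  have hDap : ∀ a, D a = ∑ j, u j * pderiv j a := by
    intro a
    rw [Fin.sum_univ_three]
    rfl
  have hDF : ∀ i, f (D (F i)) = 0 := by
    intro i
    rw [hDap, map_sum]
    have := congrFun hMv i
    simp only [Matrix.mulVec, dotProduct, Matrix.map_apply, Matrix.of_apply,
      Pi.zero_apply] at this
    rw [← this]
    exact Finset.sum_congr rfl fun j _ => by rw [map_mul, hu, mul_comm]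
  -- the vector is tangent to the curve
  have hDP : f (D P) = 0 := by
    have h1 : f (D (bind₁ F g)) = 0 := by
      rw [derivation_bind, map_sum]
      exact Finset.sum_eq_zero fun i _ => by rw [smul_eq_mul, map_mul, hDF, mul_zero]
    rw [hg, Derivation.leibniz, smul_eq_mul, smul_eq_mul, map_add, map_mul, map_mul,
      (hf0 P).2 dvd_rfl, zero_mul, zero_add] at h1
    rcases mul_eq_zero.1 h1 with h2 | h2
    · exact absurd ((hf0 w).1 h2) hPw
    · exact h2
  have hdesc : ∀ a, f a = 0 → f (D a) = 0 := by
    intro a ha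
    obtain ⟨b, rfl⟩ := (hf0 a).1 ha
    rw [Derivation.leibniz, smul_eq_mul, smul_eq_mul, map_add, map_mul, map_mul, hDP,
      (hf0 P).2 dvd_rfl, zero_mul, zero_add, mul_zero]
  let E : Derivation k S S := Derivation.liftOfSurjective hfsurj hdesc
  have hE : ∀ a, E (f a) = f (D a) := fun a => Derivation.liftOfSurjective_apply hfsurj hdesc a
  let R : Subalgebra k S := (Algebra.adjoin k (Set.range F)).map f
  have hER : ∀ a ∈ R, E a = 0 := by
    intro a ha
    obtain ⟨b, hb, rfl⟩ := Subalgebra.mem_map.1 ha
    change E (f b) = 0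
    rw [hE]
    induction hb using Algebra.adjoin_induction with
    | mem x hx =>
      obtain ⟨i, rfl⟩ := hx
      exact hDF i
    | algebraMap r => rw [D.map_algebraMap r, map_zero]
    | add x y hx' hy' hx hy =>
      rw [map_add, map_add, hx (Subalgebra.mem_map.2 ⟨x, hx', rfl⟩),
        hy (Subalgebra.mem_map.2 ⟨y, hy', rfl⟩), add_zero]
    | mul x y hx' hy' hx hy =>
      rw [Derivation.leibniz, map_add, smul_eq_mul, smul_eq_mul, map_mul, map_mul,
        hx (Subalgebra.mem_map.2 ⟨x, hx', rfl⟩), hy (Subalgebra.mem_map.2 ⟨y, hy', rfl⟩),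
        mul_zero, mul_zero, add_zero]
  apply hv
  funext j
  obtain ⟨Q, hQ, h0⟩ := isIntegral_adjoin hF (X j)
  let φ : Algebra.adjoin k (Set.range F) →+* R :=
    { toFun := fun a => ⟨f a.1, Subalgebra.mem_map.2 ⟨a.1, a.2, rfl⟩⟩
      map_one' := Subtype.ext (map_one f)
      map_mul' := fun a b => Subtype.ext (map_mul f a.1 b.1)
      map_zero' := Subtype.ext (map_zero f)
      map_add' := fun a b => Subtype.ext (map_add f a.1 b.1) }
  have hRnt : Nontrivial R := inferInstance
  have h1 : E (f (X j)) = 0 := by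
    refine derivation_algebraic R E hER (f (X j)) (Q.map φ).natDegree (Q.map φ)
      (hQ.map φ).ne_zero le_rfl ?_
    rw [Polynomial.aeval_def, Polynomial.eval₂_map]
    have h3 : (algebraMap R S).comp φ =
        (f : MvPolynomial (Fin 3) k →+* S).comp
          (algebraMap (Algebra.adjoin k (Set.range F)) (MvPolynomial (Fin 3) k)) := by
      ext a
      rfl
    rw [h3, ← RingHom.coe_coe f, ← Polynomial.hom_eval₂, h0, map_zero]
  rw [hE, hDap] at h1
  have h4 : (∑ i, u i * pderiv i (X j : MvPolynomial (Fin 3) k)) = u j := by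
    simp [pderiv_X, Pi.single_apply]
  rw [h4, hu] at h1
  exact h1

/-- Every irreducible factor of `a` divides `b`: then `a` divides a power of `b`. -/
theorem exists_dvd_pow {A : Type} [CommRing A] [IsDomain A] [UniqueFactorizationMonoid A]
    {a b : A} (ha : a ≠ 0) (h : ∀ P, Irreducible P → P ∣ a → P ∣ b) : ∃ E : ℕ, a ∣ b ^ E := by
  revert ha h
  refine UniqueFactorizationMonoid.induction_on_prime (P := fun a => a ≠ 0 →
    (∀ P, Irreducible P → P ∣ a → P ∣ b) → ∃ E : ℕ, a ∣ b ^ E) a ?_ ?_ ?_
  · intro h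
    exact absurd rfl h
  · intro x hx _ _
    exact ⟨0, hx.dvd⟩
  · intro x p hx hp ih _ h
    obtain ⟨E, hE⟩ := ih hx fun P hP hPx => h P hP (hPx.mul_left p)
    refine ⟨E + 1, ?_⟩
    rw [pow_succ, mul_comm (b ^ E) b]
    exact mul_dvd_mul (h p hp.irreducible (dvd_mul_right p x)) hE

/-- The Jacobian determinant divides a power of the cofactor of the post-critical curve. -/
theorem jf_dvd_pow [IsAlgClosed k] [CharZero k] {d : ℕ} {F : Fin 3 → MvPolynomial (Fin 3) k}
    (hF : IsEndo d F) {g q : MvPolynomial (Fin 3) k} (hg : Squarefree g)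
    (hq : bind₁ F g = g * q) (hJ : ∀ P, Irreducible P → P ∣ jf F → P ∣ g) :
    ∃ E : ℕ, jf F ∣ q ^ E := by
  refine exists_dvd_pow (jf_ne_zero hF) fun P hP hPJ => ?_
  obtain ⟨g', rfl⟩ := hJ P hP hPJ
  have h1 : P ∣ g' * q := dvd_of_dvd_jf hF hP hPJ (by rw [hq, mul_assoc])
  rcases hP.prime.dvd_or_dvd h1 with h2 | h2
  · exfalso
    exact hP.not_isUnit (hg P (mul_dvd_mul_left P h2))
  · exact h2

end Pool.Agent.Helper14.PC
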